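import Pool.Agent.L5helper59.DC.Defs
import Pool.Agent.L5helper67.DC.Points

/-!
Nearly cubic lower bound for the determinantal complexity of the permanent: definitions and the
statements of the parts.
-/

set_option autoImplicit false

namespace L5helper58.PG

open Finset MvPolynomial L5helper59.DC

/-- The base matrix: rows `R_i`, `b_j`, `E_l`, columns `a_i`, `C_j`, `F_l`:
`R_i = (w_i at a_i, Y i j at C_j)`, `b_j = (w_j at C_j, 1 at F_l)`, `E_l = (1 at a_i)`. -/
def baseM {R : Type*} [CommRing R] {ρ γ : Type*} [DecidableEq ρ] [DecidableEq γ] (r : ℕ)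
    (w : ρ ⊕ γ → R) (Y : ρ → γ → R) : Matrix (ρ ⊕ (γ ⊕ Fin r)) (ρ ⊕ (γ ⊕ Fin r)) R :=
  Matrix.of fun a b => match a, b with
    | Sum.inl i, Sum.inl i' => if i = i' then w (Sum.inl i) else 0
    | Sum.inl i, Sum.inr (Sum.inl j) => Y i j
    | Sum.inl _, Sum.inr (Sum.inr _) => 0
    | Sum.inr (Sum.inl _), Sum.inl _ => 0
    | Sum.inr (Sum.inl j), Sum.inr (Sum.inl j') => if j = j' then w (Sum.inr j) else 0
    | Sum.inr (Sum.inl _), Sum.inr (Sum.inr _) => 1
    | Sum.inr (Sum.inr _), Sum.inl _ => 1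
    | Sum.inr (Sum.inr _), Sum.inr _ => 0

/-- Part Base: the permanent of the base matrix of a partial diagonal matrix. -/
def BaseStmt : Prop :=
  ∀ {R : Type} [CommRing R] {ρ γ : Type} [Fintype ρ] [Fintype γ] [DecidableEq ρ] [DecidableEq γ]
    (r : ℕ) (π : ρ ↪ γ) (y : ρ → R),
    (baseM r (fun _ => 1) (fun i j => if j = π i then y i else 0)).permanent =
      (r.factorial : R) ^ 2 * ∑ S ∈ powersetCard r (univ : Finset ρ), ∏ i ∈ S, y i

/-- Part Points: `(q!)^2` nondegenerate critical points of `e_{q+1}` in `2 q` variables. -/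
def PointsStmt : Prop :=
  ∀ (q : ℕ) [NeZero q], 2 ≤ q →
    ∃ (c : ℂ) (S : Finset (Fin 2 × ZMod q → ℂ)), S.card = (q.factorial) ^ 2 ∧
      (∀ p ∈ S, ∀ v, eval p (pderiv v (esymm (Fin 2 × ZMod q) ℂ (q + 1))) = c) ∧
      (∀ p ∈ S, ∀ z : Fin 2 × ZMod q → ℂ,
        (∀ v, ∑ v', z v' * eval p (pderiv v' (pderiv v (esymm (Fin 2 × ZMod q) ℂ (q + 1)))) = 0) →
          z = 0)

/-- the number of ports -/
def ports (s L : ℕ) : ℕ := 2 * s + 2 ^ L

/-- bound for the size of the projection -/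
def size (s L r : ℕ) : ℕ := ports s L + r + L * (1 + 3 * ports s L + 3 * L)

/-- Part Projection: the sum of `2 ^ L` elementary symmetric polynomials of degree `r` in separate
variables is, up to a constant, a limit of projections of the permanent of size `size s L r`. -/
def ProjStmt : Prop :=
  ∀ (V : Type) [Fintype V] [DecidableEq V] (L r : ℕ),
    ∃ m ≤ size (Fintype.card V) L r,
    ∃ B : ℕ → Matrix (Fin m) (Fin m) (MvPolynomial (Fin (2 ^ L) × V) ℂ),
      (∀ k i j, (B k i j).totalDegree ≤ 1) ∧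
      ∀ d, Filter.Tendsto (fun k => coeff d (B k).permanent) Filter.atTop
        (nhds (coeff d (C ((r.factorial : ℂ) ^ 2) *
          ∑ z : Fin (2 ^ L), rename (fun v => (z, v)) (esymm V ℂ r))))

/-- Part Assembly: the final inequality. -/
def AssemblyStmt : Prop :=
  ∀ (q L m M : ℕ), 2 ≤ q → 1 ≤ L → size (2 * q) L (q + 1) ≤ m → BorderRep m M →
    ∀ a b : ℕ, 1 ≤ a → 1 ≤ b →
      (q.factorial) ^ (2 * (2 ^ L - 1)) * (a ^ (2 * q * (2 ^ L - 1) + 1) * b ^ (2 * M)) ≤
        (a + b) ^ (2 * M + 1) * (2 * b) ^ (2 * q * (2 ^ L - 1))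

end L5helper58.PG
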